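import Mathlib
import Pool.Agent.Y703.XL.InfC

/-!
# The `3^∞`-Selmer groups of the cubic twists over `ℚ(√-3)`

`K` is the field of third roots of unity, `E_D : y² + D y = x³`, and `D` runs through the squarefree
`D = 1` modulo `3` of `𝓞 K` whose norm is not `1` modulo `9`; there are at least `c X` such `D` of
norm at most `X`. `Sel D` is the `3^∞`-Selmer group of `E_D` over `K`, and `killed ω D` is the
kernel of the endomorphism `√-3 = 1 + 2 ω` on it.

* `killed ω D` has order `3 ^ r` for some `r`, the rank of `E_D(K)` over `ℤ` is at most `2 r`, and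
  `r = 0` if and only if `Sel D = 0`.
* For every `r` the proportion of the `D` with `killed ω D` of order `3 ^ r` tends to
  `∏_{i ≥ 0} (1 - 3^{-(2 i + 1)}) / ((3 - 1) (9 - 1) ⋯ (3 ^ r - 1))`; these limits sum to one.
* In particular the proportion of the `D` with `Sel D = 0` tends to `∏_{i ≥ 0} (1 - 3^{-(2 i + 1)})`,
  which is `0.639...`.
* The average of the order of `killed ω D` tends to `2`.

`IsShaCoc` of the library: the continuous cocycles of the absolute Galois group of `K` with values
in the points over an algebraic closure that are coboundaries at all the places.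

Joint work of helper31, helper275, helper968, helper994, helper170, helper697, helper363, helper710,
helper804, helper528, helper85, helper688, helper474, helper433, helper550, helper699, helper145,
helper350, helper696 and helper703 (projects XK, XL) and of the seats named in the headers of
`Pool/Agent/Y703/CT` and of the files imported by `Pool/Agent/Y696/CTK/Fin.lean`.
-/

set_option autoImplicit false

namespace Pool.Agent.Results.MP_a3f657_nt.CubicTwistsThreeInfinity

open NumberField WeierstrassCurve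
open Pool.Agent.TH841.SH.D (Pt act Gal Coch)
open Pool.Agent.TH841.NF.D (IsShaCoc shaCoc)
open scoped Classical

variable {K : Type} [Field K] [NumberField K]

/-- The curve `E_D : y² + D y = x³`. -/
def curve {K : Type} [Field K] (D : K) : WeierstrassCurve K := ⟨0, 0, D, 0, 0⟩

/-- The endomorphism `(x, y) ↦ (ω x, y)` of `E_D` for a third root of unity `ω`, on the points over
an extension `L`. -/
noncomputable def rotation {K : Type} [Field K] (D ω : K) (L : Type) [Field L] [Algebra K L] :
    Pt (curve D) L → Pt (curve D) L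
  | 0 => 0
  | .some x y _ =>
    if h : ((curve D).baseChange L).toAffine.Nonsingular (algebraMap K L ω * x) y then
      .some _ y h
    else 0

/-- The group of the continuous cocycles of the absolute Galois group of `K` with values in
`E_D[3^∞]` that are coboundaries in `E_D` at all the places of `K`. -/
def Cocycles (D : K) : AddSubgroup (Coch (curve D)) where
  carrier := {f | IsShaCoc (curve D) f ∧ ∀ σ, ∃ n : ℕ, 3 ^ n • f σ = 0}
  zero_mem' := (Pool.Agent.Y703.XL.Inf.selCoc D).zero_mem'
  add_mem' := (Pool.Agent.Y703.XL.Inf.selCoc D).add_mem'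
  neg_mem' := (Pool.Agent.Y703.XL.Inf.selCoc D).neg_mem'

/-- The group of the coboundaries of the points of `E_D[3^∞]`. -/
def Coboundaries (D : K) : AddSubgroup (Coch (curve D)) where
  carrier := {f | ∃ P : Pt (curve D) (AlgebraicClosure K), (∃ n : ℕ, 3 ^ n • P = 0) ∧
    ∀ σ : Gal K, f σ = act (curve D) σ.toAlgHom P - P}
  zero_mem' := (Pool.Agent.Y703.XL.Inf.cobInf D).zero_mem'
  add_mem' := (Pool.Agent.Y703.XL.Inf.cobInf D).add_mem'
  neg_mem' := (Pool.Agent.Y703.XL.Inf.cobInf D).neg_mem'

/-- The `3^∞`-Selmer group of `E_D` over `K`: the kernel of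
`H¹(K, E_D[3^∞]) → ∏ H¹(K_v, E_D)`. -/
def Sel (D : K) : Type := Cocycles D ⧸ (Coboundaries D).addSubgroupOf (Cocycles D)

/-- The group law of the `3^∞`-Selmer group. -/
noncomputable instance Sel.group (D : K) : AddCommGroup (Sel D) :=
  @QuotientAddGroup.Quotient.addCommGroup (Cocycles D) _
    ((Coboundaries D).addSubgroupOf (Cocycles D))

/-- The class of a cocycle. -/
noncomputable def cls {D : K} (f : Cocycles D) : Sel D := QuotientAddGroup.mk f

/-- The kernel of the endomorphism `√-3 = 1 + 2 ω` on the `3^∞`-Selmer group: the classes of the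
cocycles `f` for which `σ ↦ f σ + 2 ω (f σ)` is a coboundary. -/
def killed (ω D : K) : Set (Sel D) :=
  {x | ∃ f : Cocycles D, cls f = x ∧
    (fun σ => f.1 σ + (2 : ℕ) • rotation D ω (AlgebraicClosure K) (f.1 σ) : Coch (curve D)) ∈
      Coboundaries D}

/-- The `3^∞`-Selmer group is trivial. -/
def Trivial (D : K) : Prop := ∀ x : Sel D, x = 0

/-- The rank of `E_D(K)` over `ℤ`. -/
noncomputable def rank (D : K) : ℕ := Module.finrank ℤ (curve D).toAffine.Point

/-- `D` is squarefree and `1` modulo `3`, and its norm is not `1` modulo `9`. -/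
def InClass (D : 𝓞 K) : Prop :=
  (3 : 𝓞 K) ∣ D - 1 ∧ Squarefree D ∧ ¬ (9 : ℤ) ∣ Algebra.norm ℤ D - 1

/-- The `D` of the class of norm at most `X`. -/
def upTo (K : Type) [Field K] [NumberField K] (X : ℕ) : Set (𝓞 K) :=
  {D : 𝓞 K | Algebra.norm ℤ D ≤ X ∧ InClass D}

/-- `∏_{i ≥ 0} (1 - 3^{-(2 i + 1)}) / ((3 - 1) (9 - 1) ⋯ (3 ^ r - 1))`. -/
noncomputable def prob (r : ℕ) : ℝ :=
  (∏' i : ℕ, (1 - (1 / 3 : ℝ) ^ (2 * i + 1))) / ∏ i ∈ Finset.range r, ((3 : ℝ) ^ (i + 1) - 1)

theorem result (K : Type) [Field K] [NumberField K] [IsCyclotomicExtension {3} ℚ K] (ω : K)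
    (hω : ω ^ 2 + ω + 1 = 0) :
    (∃ c : ℝ, 0 < c ∧ ∃ X₀ : ℕ, ∀ X : ℕ, X₀ ≤ X → c * X ≤ ((upTo K X).ncard : ℝ)) ∧
    (∀ D : 𝓞 K, InClass D →
      (∃ r : ℕ, (killed ω (D : K)).ncard = 3 ^ r ∧ rank (D : K) ≤ 2 * r) ∧
      ((killed ω (D : K)).ncard = 1 ↔ Trivial (D : K))) ∧
    (∀ r : ℕ, Filter.Tendsto (fun X : ℕ =>
      ({D : 𝓞 K | Algebra.norm ℤ D ≤ X ∧ InClass D ∧
        (killed ω (D : K)).ncard = 3 ^ r}.ncard : ℝ) / ((upTo K X).ncard : ℝ))
      Filter.atTop (nhds (prob r))) ∧
    Filter.Tendsto (fun X : ℕ =>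
      ({D : 𝓞 K | Algebra.norm ℤ D ≤ X ∧ InClass D ∧ Trivial (D : K)}.ncard : ℝ) /
        ((upTo K X).ncard : ℝ))
      Filter.atTop (nhds (prob 0)) ∧
    (0.639 < prob 0 ∧ prob 0 < 0.6391 ∧ HasSum prob 1) ∧
    Filter.Tendsto (fun X : ℕ =>
      (∑ᶠ D ∈ upTo K X, ((killed ω (D : K)).ncard : ℝ)) / ((upTo K X).ncard : ℝ))
      Filter.atTop (nhds 2) :=
  Pool.Agent.Y703.XL.Inf.finalInf K ω hω

end Pool.Agent.Results.MP_a3f657_nt.CubicTwistsThreeInfinity
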