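import Mathlib
import Pool.Agent.Y723.Z8.ShaN
import Pool.Agent.W307.RT.Tors

/-!
# The 2-power part of `Ш` for the curves with torsion `Z/2 x Z/4`, `Z/2 x Z/6` or `Z/2 x Z/8`, by height

Let `m` be `4`, `6` or `8`. We consider all elliptic curves over `ℚ` whose group of rational points
has a subgroup isomorphic to `Z/2 x Z/m`, ordered by height. The average of the order of `Ш[2]` over
these curves is bounded by a constant, and so are, with the same constant, the averages of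
`#Ш[2 ^ k] ^ (1 / k)` for all `k`; the proportion of the curves whose Tate-Shafarevich group contains
a subgroup `(ℚ₂ / ℤ₂) ^ δ` is at most `C / 2 ^ δ`.
-/

set_option autoImplicit false

namespace Pool.Agent.Results.MP_a3f657_nt.NoncyclicTorsionSha

open Finset Filter

open Pool.Agent.TH841.SH.D (Sha ShaTor HasDiv)

/-- the curve `y² = x³ + A x + B` over `ℚ` -/
def E (A B : ℤ) : WeierstrassCurve ℚ := ⟨0, 0, 0, (A : ℚ), (B : ℚ)⟩

open Classical in
/-- The pairs `(A, B)` of integers such that `4 A³ + 27 B² ≠ 0`, there is no prime `p` with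
`p⁴ ∣ A` and `p⁶ ∣ B`, the height `max (4 |A|³) (27 B²)` is at most `H`, and `Z/2 x Z/m` embeds in
the group of the rational points of `y² = x³ + A x + B`. (The bounds `|A|, |B| ≤ H` follow from the
bound of the height. Every elliptic curve over `ℚ` is isomorphic to `E A B` for exactly one pair
with the first two properties.) -/
noncomputable def Fam (m H : ℕ) : Finset (ℤ × ℤ) :=
  ((Icc (-(H : ℤ)) H) ×ˢ (Icc (-(H : ℤ)) H)).filter (fun c : ℤ × ℤ =>
    4 * c.1 ^ 3 + 27 * c.2 ^ 2 ≠ 0 ∧ 4 * |c.1| ^ 3 ≤ H ∧ 27 * c.2 ^ 2 ≤ H ∧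
    (∀ p : ℕ, p.Prime → ¬ ((p : ℤ) ^ 4 ∣ c.1 ∧ (p : ℤ) ^ 6 ∣ c.2)) ∧
    ∃ f : ZMod 2 × ZMod m →+ (E c.1 c.2).toAffine.Point, Function.Injective f)

lemma Fam_eq (m H : ℕ) : Fam m H = Pool.Agent.W307.RT.Cv m H := by
  classical
  unfold Fam Pool.Agent.W307.RT.Cv
  apply filter_congr
  intro c _
  have h : Pool.Agent.W307.RT.HasT m (Pool.Agent.W307.RT.Sh c.1 c.2) ↔
      ∃ f : ZMod 2 × ZMod m →+ (E c.1 c.2).toAffine.Point, Function.Injective f :=
    Pool.Agent.W307.RT.tors_iff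
  rw [h]

open Classical in
/-- **Theorem.** Let `m` be `4`, `6` or `8`. The number of the elliptic curves over `ℚ` of height at
most `H` with a subgroup `Z/2 x Z/m` of rational points tends to infinity with `H`. The groups
`Ш[2 ^ k]` of these curves are finite, and with a constant `C` that depends neither on `H` nor on
`k`, `δ`: the average of `#Ш[2 ^ k] ^ (1 / k)` over these curves is at most `C` (for `k = 1` this is
the average of `#Ш[2]`), and the proportion of the curves whose Tate-Shafarevich group has a subgroup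
isomorphic to `(ℚ₂ / ℤ₂) ^ δ` is at most `C / 2 ^ δ`. -/
theorem result (m : ℕ) (hm : m = 4 ∨ m = 6 ∨ m = 8) :
    Tendsto (fun H : ℕ => (Fam m H).card) atTop atTop ∧
    ∃ C : ℝ, ∀ H : ℕ,
      (∀ c ∈ Fam m H, ∀ k : ℕ, Finite (ShaTor (E c.1 c.2) (2 ^ k))) ∧
      (∀ k : ℕ, 1 ≤ k → ∑ c ∈ Fam m H,
        (Nat.card (ShaTor (E c.1 c.2) (2 ^ k)) : ℝ) ^ ((1 : ℝ) / k) ≤ C * (Fam m H).card) ∧
      ∀ δ : ℕ, (((Fam m H).filter (fun c => HasDiv (E c.1 c.2) δ)).card : ℝ) ≤
        C * (Fam m H).card / 2 ^ δ := by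
  simp only [Fam_eq]
  refine ⟨Pool.Agent.Y723.Z8.ShaN.tendstoH hm, ?_⟩
  obtain ⟨C, hC⟩ := Pool.Agent.Y723.Z8.ShaN.shaH hm
  exact ⟨C, fun H => ⟨(hC H).1, fun k hk => (hC H).sha hk, fun δ => (hC H).div δ⟩⟩

end Pool.Agent.Results.MP_a3f657_nt.NoncyclicTorsionSha
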