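import Mathlib
import Pool.Agent.Y667.SX.Main
import Pool.Agent.Y667.RP.Disc
import Pool.Agent.W672.FK.Lowf
import Pool.Agent.W307.RT.Tors

/-!
# The `2 ^ ∞`-Selmer groups of the curves with full rational 2-torsion

All elliptic curves `E` over `ℚ` with full rational 2-torsion, ordered by the naive height or by the
absolute value of the minimal discriminant. For every `m ≥ 0` a positive proportion of the curves has
a `2 ^ ∞`-Selmer group with exactly `2 ^ m` elements of order dividing `2`,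
`rank + dim Ш(E)[2] = m` and root number `(-1) ^ m`. For `m = 0` all the terms of the sequence
`0 → E(ℚ) ⊗ ℚ₂ / ℤ₂ → Sel_{2 ^ ∞}(E) → Ш(E)[2 ^ ∞] → 0` vanish.
-/

namespace Pool.Agent.Results.MP_a3f657_nt.SelmerInfTwoTorsion

open Finset Filter Topology

open Pool.Agent.TH841.SH.D (Sha Pruf)

open Pool.Agent.Y667.BK (SelInf)

/-- the curve `y² = x³ + A x + B` over `ℚ` -/
def E (A B : ℤ) : WeierstrassCurve ℚ := ⟨0, 0, 0, (A : ℚ), (B : ℚ)⟩

/-- the absolute value of the minimal discriminant of an elliptic curve `W` over `ℚ`: the smallest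
absolute value of the discriminant of a Weierstrass equation `V` with integer coefficients which is
isomorphic to `W` over `ℚ` -/
noncomputable def minDisc (W : WeierstrassCurve ℚ) : ℕ :=
  sInf {n : ℕ | ∃ (V : WeierstrassCurve ℤ) (C : WeierstrassCurve.VariableChange ℚ),
    C • W = V.map (Int.castRingHom ℚ) ∧ n = V.Δ.natAbs}

/-- the naive height of `y² = x³ + A x + B` is at most `Z` -/
def HeightLe (c : ℤ × ℤ) (Z : ℕ) : Prop := 4 * |c.1| ^ 3 ≤ Z ∧ 27 * c.2 ^ 2 ≤ Z

/-- the minimal discriminant of `y² = x³ + A x + B` is at most `Z` in absolute value -/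
def DiscLe (c : ℤ × ℤ) (Z : ℕ) : Prop := minDisc (E c.1 c.2) ≤ Z

/-- The pairs `(A, B)` of integers such that `4 A³ + 27 B² ≠ 0`, there is no prime `p` with
`p⁴ ∣ A` and `p⁶ ∣ B`, `Z/2 x Z/2` embeds in the group of the rational points of
`y² = x³ + A x + B`, and the size (`HeightLe` or `DiscLe`) is at most `Z`. Every elliptic curve over
`ℚ` with full rational 2-torsion is isomorphic to `E A B` for exactly one pair with the first three
properties. -/
def Fam (I : ℤ × ℤ → ℕ → Prop) (Z : ℕ) : Set (ℤ × ℤ) :=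
  {c : ℤ × ℤ | 4 * c.1 ^ 3 + 27 * c.2 ^ 2 ≠ 0 ∧
    (∀ p : ℕ, p.Prime → ¬ ((p : ℤ) ^ 4 ∣ c.1 ∧ (p : ℤ) ^ 6 ∣ c.2)) ∧
    (∃ f : ZMod 2 × ZMod 2 →+ (E c.1 c.2).toAffine.Point, Function.Injective f) ∧ I c Z}

/-- the proportion of the curves of `S` among the curves of size at most `Z` -/
noncomputable def proportion (I : ℤ × ℤ → ℕ → Prop) (S : Set (ℤ × ℤ)) (Z : ℕ) : ℝ :=
  ((Fam I Z ∩ S).ncard : ℝ) / (Fam I Z).ncard

lemma FamH_eq (H : ℕ) : Fam HeightLe H = (Pool.Agent.W307.RT.Cv 2 H : Set (ℤ × ℤ)) := by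
  classical
  ext c
  have h : Pool.Agent.W307.RT.HasT 2 (Pool.Agent.W307.RT.Sh c.1 c.2) ↔
    ∃ f : ZMod 2 × ZMod 2 →+ (E c.1 c.2).toAffine.Point, Function.Injective f :=
    Pool.Agent.W307.RT.tors_iff
  unfold Fam HeightLe Pool.Agent.W307.RT.Cv
  rw [Set.mem_ofPred_eq, mem_coe, mem_filter, h, mem_product, mem_Icc, mem_Icc]
  constructor
  · rintro ⟨h1, h2, h3, h4, h5⟩
    refine ⟨⟨?_, ?_⟩, h1, h4, h5, h2, h3⟩
    · rw [← abs_le]
      have h0 := abs_nonneg c.1
      rcases eq_or_lt_of_le h0 with h6 | h6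
      · rw [← h6]; positivity
      · have : 1 ≤ |c.1| := h6
        nlinarith [mul_nonneg h0 h0, mul_self_nonneg (|c.1| - 1)]
    · rw [← abs_le]
      have h0 := abs_nonneg c.2
      rw [← sq_abs] at h5
      rcases eq_or_lt_of_le h0 with h6 | h6
      · rw [← h6]; positivity
      · have : 1 ≤ |c.2| := h6
        nlinarith
  · rintro ⟨-, h1, h4, h5, h2, h3⟩
    exact ⟨h1, h2, h3, h4, h5⟩

lemma FamD_eq (D : ℕ) : Fam DiscLe D = (Pool.Agent.TH344.DS.Dv D : Set (ℤ × ℤ)) := by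
  classical
  have h0 : Fam DiscLe D = Pool.Agent.W307.RS.DvS 2 D := by
    ext c
    have h : Pool.Agent.W307.RT.HasT 2 (Pool.Agent.W307.RT.Sh c.1 c.2) ↔
        ∃ f : ZMod 2 × ZMod 2 →+ (E c.1 c.2).toAffine.Point, Function.Injective f :=
      Pool.Agent.W307.RT.tors_iff
    unfold Fam Pool.Agent.W307.RS.DvS
    rw [Set.mem_ofPred_eq, Set.mem_ofPred_eq, h]
    exact Iff.rfl
  rw [h0]
  unfold Pool.Agent.TH344.DS.Dv
  rw [dif_pos (Pool.Agent.TH344.DS.excd.1 D), Set.Finite.coe_toFinset]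

/-- The number of these curves tends to infinity (ordering by height). -/
lemma tendstoH : Tendsto (fun Z : ℕ => (Fam HeightLe Z).ncard) atTop atTop := by
  simp only [FamH_eq, Set.ncard_coe_finset]
  exact Pool.Agent.W307.RT.tendsto_of_low Pool.Agent.W672.FK.lowf

/-- The number of these curves tends to infinity (ordering by the minimal discriminant). -/
lemma tendstoD : Tendsto (fun Z : ℕ => (Fam DiscLe Z).ncard) atTop atTop := by
  have h1 := Pool.Agent.W307.RT.tendsto_of_low Pool.Agent.W672.FK.lowf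
  have h2 : Tendsto (fun D : ℕ => (Pool.Agent.W307.RT.Cv 2 (D / 32)).card) atTop atTop :=
    h1.comp (Nat.tendsto_div_const_atTop (by norm_num))
  obtain ⟨hD1, hD2, hD3⟩ := Pool.Agent.TH344.DS.excd
  refine tendsto_atTop_mono (fun D => ?_) h2
  have h3 : (Pool.Agent.TH344.DS.Dv D : Set (ℤ × ℤ)) = Pool.Agent.W307.RS.DvS 2 D := by
    unfold Pool.Agent.TH344.DS.Dv
    rw [dif_pos (hD1 D), Set.Finite.coe_toFinset]
  rw [FamD_eq, h3, ← Set.ncard_coe_finset]
  exact Set.ncard_le_ncard (Pool.Agent.W307.RS.Cv_sub Pool.Agent.W554.RS.mdl 2 (D / 32) D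
    (Nat.mul_div_le D 32)) (hD1 D)

/-- the Mordell-Weil rank -/
noncomputable def rank (c : ℤ × ℤ) : ℕ := Module.finrank ℤ (E c.1 c.2).toAffine.Point

/-- `a_p = p + 1 - #V(𝔽_p)`, that is `p` minus the number of the affine solutions of the Weierstrass
equation modulo `p`; for a prime of multiplicative reduction this is `1` (split) or `-1`
(non-split) -/
noncomputable def ap (V : WeierstrassCurve ℤ) (p : ℕ) : ℤ :=
  p - Nat.card {z : ZMod p × ZMod p // z.2 ^ 2 + V.a₁ * z.1 * z.2 + V.a₃ * z.2 =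
    z.1 ^ 3 + V.a₂ * z.1 ^ 2 + V.a₄ * z.1 + V.a₆}

/-- the equation with integer coefficients is nonsingular over `ℚ` and at every prime the reduction
is good or multiplicative (then it is a minimal equation) -/
def Semistable (V : WeierstrassCurve ℤ) : Prop :=
  V.Δ ≠ 0 ∧ ∀ p : ℕ, p.Prime → (p : ℤ) ∣ V.Δ → ¬ (p : ℤ) ∣ V.c₄

/-- the conductor of a semistable curve -/
def conductor (V : WeierstrassCurve ℤ) : ℕ := ∏ p ∈ V.Δ.natAbs.primeFactors, p

/-- The root number of a semistable curve: the product of the local root numbers `-1` at infinity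
and `-a_p` at the primes of bad (multiplicative) reduction. -/
noncomputable def wSemi (V : WeierstrassCurve ℤ) : ℤ :=
  -∏ p ∈ V.Δ.natAbs.primeFactors, (-ap V p)

/-- the quadratic twist by `d` of the curve `V` (the curve `y² = x³ + b₂ x² + 8 b₄ x + 16 b₆`) -/
def twist (V : WeierstrassCurve ℤ) (d : ℕ) : WeierstrassCurve ℚ :=
  ⟨0, (d : ℚ) * V.b₂, 0, 8 * (d : ℚ) ^ 2 * V.b₄, 16 * (d : ℚ) ^ 3 * V.b₆⟩

/-- `w` is the root number of `W`, for the quadratic twists `W` of a semistable curve `V` of conductor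
`N` by a positive fundamental discriminant `d ≡ 1` modulo `4` prime to `N` (`d = 1` allowed): it is
`χ_d(-N) w_V`, where `χ_d(-N) = χ_d(N)` is the Jacobi symbol `(N / d)` -/
def HasRootNumber (W : WeierstrassCurve ℚ) (w : ℤ) : Prop :=
  ∃ (V : WeierstrassCurve ℤ) (d : ℕ), Semistable V ∧ Squarefree d ∧ d % 4 = 1 ∧
    d.Coprime V.Δ.natAbs ∧ (∃ C : WeierstrassCurve.VariableChange ℚ, C • W = twist V d) ∧
    w = jacobiSym (conductor V) d * wSemi V

/-- all the terms of the sequence `0 → E(ℚ) ⊗ ℚ₂ / ℤ₂ → Sel_{2 ^ ∞}(E) → Ш(E)[2 ^ ∞] → 0` are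
zero -/
def ZeroSeq (c : ℤ × ℤ) : Prop :=
  (∀ x : TensorProduct ℤ (E c.1 c.2).toAffine.Point Pruf, x = 0) ∧
    (∀ x : SelInf (E c.1 c.2), x = 0) ∧
    ∀ (k : ℕ) (x : Sha (E c.1 c.2)), (2 ^ k : ℕ) • x = 0 → x = 0

/-- the curves such that `Sel_{2 ^ ∞}(E)` has exactly `2 ^ m` elements `x` with `2 x = 0`,
`2 ^ rank * |Ш(E)[2]| = 2 ^ m`, the root number is `(-1) ^ m`, and, if `m = 0`, all the terms of the
sequence are zero -/
def SelInfTwo (m : ℕ) : Set (ℤ × ℤ) :=
  {c | Nat.card {x : SelInf (E c.1 c.2) // x + x = 0} = 2 ^ m ∧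
    2 ^ rank c * Nat.card {x : Sha (E c.1 c.2) // x + x = 0} = 2 ^ m ∧
    HasRootNumber (E c.1 c.2) ((-1) ^ m) ∧ (m = 0 → ZeroSeq c)}

lemma selInfTwo_of {m : ℕ} {c : ℤ × ℤ} (hD : 4 * c.1 ^ 3 + 27 * c.2 ^ 2 ≠ 0)
    (hT : ∃ f : ZMod 2 × ZMod 2 →+ (E c.1 c.2).toAffine.Point, Function.Injective f)
    (h : Pool.Agent.Y667.PA.TPR m c) : c ∈ SelInfTwo m := by
  have hT' := Pool.Agent.W307.RT.tors_iff.2 hT
  obtain ⟨-, ⟨-, h2⟩, -, h3⟩ := Pool.Agent.Y667.SX.sx_of hD hT' h.1 h.2.1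
  refine ⟨h3, h2, h.2.2.1, fun hm => ?_⟩
  subst hm
  obtain ⟨h4, h5⟩ := Pool.Agent.Y667.SHA.sha_zero4 hD hT' h.1 (le_of_eq h.2.1)
  have h6 : Finite (E c.1 c.2).toAffine.Point := Pool.Agent.Y667.BK.fin_pts hD hT' h4
  exact ⟨Pool.Agent.Y667.BK.tensor_div_zero Pool.Agent.Y667.BK.pruf_div,
    Pool.Agent.Y667.BK.selInf_zero h6 h5, h5⟩

/-- **Theorem.** Order the elliptic curves over `ℚ` with full rational 2-torsion by the naive height
or by the absolute value of the minimal discriminant. For both orderings there are finitely many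
curves of size at most `Z`, their number tends to infinity with `Z`, and for every `m ≥ 0` a
positive proportion of them (the lower density is positive) has exactly `2 ^ m` elements of order
dividing `2` in the `2 ^ ∞`-Selmer group, `rank + dim Ш(E)[2] = m` and root number `(-1) ^ m`; for
`m = 0` all the terms of the sequence of the `2 ^ ∞`-Selmer group are zero. -/
theorem result : ∀ I : ℤ × ℤ → ℕ → Prop, I = HeightLe ∨ I = DiscLe →
    (∀ Z : ℕ, (Fam I Z).Finite) ∧ Tendsto (fun Z : ℕ => (Fam I Z).ncard) atTop atTop ∧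
    ∀ r : ℕ, ∃ δ : ℝ, 0 < δ ∧ ∀ᶠ Z : ℕ in atTop, δ ≤ proportion I (SelInfTwo r) Z := by
  classical
  have h0 : ∀ r : ℕ, ∃ c : ℝ, 0 < c ∧ ∃ H0 : ℕ, ∀ H : ℕ, H0 ≤ H →
      c * ((Pool.Agent.W307.RT.Cv 2 H).card : ℝ) ≤
        (((Pool.Agent.W307.RT.Cv 2 H).filter (Pool.Agent.Y667.PA.TPR r)).card : ℝ) := by
    intro r
    obtain ⟨c, hc, H0, h⟩ := Pool.Agent.Y667.PA.curvesPR r
    refine ⟨c, hc, H0, fun H hH => (h H hH).trans
      (Nat.cast_le.2 (card_le_card fun k hk => ?_))⟩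
    rw [mem_filter] at hk ⊢
    exact hk
  have hsub : ∀ (I : ℤ × ℤ → ℕ → Prop) (Z r : ℕ) (k : ℤ × ℤ), k ∈ Fam I Z →
      Pool.Agent.Y667.PA.TPR r k → k ∈ Fam I Z ∩ SelInfTwo r := by
    intro I Z r k hk hPk
    exact ⟨hk, selInfTwo_of hk.1 hk.2.2.1 hPk⟩
  intro I hI
  rcases hI with rfl | rfl
  · refine ⟨fun Z => ?_, tendstoH, ?_⟩
    · rw [FamH_eq]
      exact finite_toSet _
    · intro r
      obtain ⟨c, hc, H0, h⟩ := h0 r
      refine ⟨c, hc, ?_⟩
      filter_upwards [eventually_ge_atTop H0, tendstoH.eventually_ge_atTop 1] with H hH hH1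
      unfold proportion
      rw [le_div_iff₀ (by exact_mod_cast hH1)]
      have e1 : (Fam HeightLe H).ncard = (Pool.Agent.W307.RT.Cv 2 H).card := by
        rw [FamH_eq, Set.ncard_coe_finset]
      rw [e1]
      refine (h H hH).trans (Nat.cast_le.2 ?_)
      rw [← Set.ncard_coe_finset]
      refine Set.ncard_le_ncard (fun k hk => ?_) (Set.Finite.inter_of_left (by
        rw [FamH_eq]
        exact finite_toSet _) _)
      rw [mem_coe, mem_filter] at hk
      refine hsub _ _ r k ?_ hk.2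
      rw [FamH_eq, mem_coe]
      exact hk.1
  · refine ⟨fun Z => ?_, tendstoD, ?_⟩
    · rw [FamD_eq]
      exact finite_toSet _
    · intro r
      obtain ⟨c, hc, H0, h⟩ := Pool.Agent.Y667.RP.disc_of_height (Pool.Agent.Y667.PA.TPR r) (h0 r)
      refine ⟨c, hc, ?_⟩
      filter_upwards [eventually_ge_atTop H0, tendstoD.eventually_ge_atTop 1] with H hH hH1
      unfold proportion
      rw [le_div_iff₀ (by exact_mod_cast hH1)]
      have e1 : (Fam DiscLe H).ncard = (Pool.Agent.TH344.DS.Dv H).card := by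
        rw [FamD_eq, Set.ncard_coe_finset]
      rw [e1]
      refine (h H hH).trans (Nat.cast_le.2 ?_)
      rw [← Set.ncard_coe_finset]
      refine Set.ncard_le_ncard (fun k hk => ?_) (Set.Finite.inter_of_left (by
        rw [FamD_eq]
        exact finite_toSet _) _)
      rw [mem_coe, mem_filter] at hk
      refine hsub _ _ r k ?_ hk.2
      rw [FamD_eq, mem_coe]
      exact hk.1

end Pool.Agent.Results.MP_a3f657_nt.SelmerInfTwoTorsion
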