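import Pool.Agent.Y17.X.Sel
import Pool.Agent.Y17.X.Joint
import Pool.Agent.Y17.X.SelInf
import Pool.Agent.Y687.JQ.Fin

/-!
# The `2 ^ ∞`-Selmer groups of the twists of `X_0(14)`: the exact probability of the zero group

`E^D : y² = x³ + 5805 D² x - 285714 D³` are the quadratic twists of the non-CM curve `E = X_0(14)`, which
has exactly one rational point of order two. The class `Adm` consists of the squarefree `D = 1 mod 4` of
any sign which are squares modulo `7`, prime to `3`, and all prime factors of which split completely in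
`ℚ(i, √2, √-7)` or are inert in `ℚ(√2)` and in `ℚ(√-7)`.

For `D` in the class the sequence `0 → E^D(ℚ) ⊗ ℚ₂/ℤ₂ → Sel_{2 ^ ∞}(E^D) → Ш(E^D)[2 ^ ∞] → 0` is zero if
and only if the matrix `R D` over `𝔽₂` of quadratic residue symbols is nonsingular, and the proportion
of the `D` of a given sign, ordered by `|D|` (that is, by the height of `E^D`), for which it is zero is
`c = ∏_{i ≥ 1} (1 - 2^{1 - 2 i}) = 0.4194...`. For any finite set of elements `m` of the class the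
events `Seq (E^(star m D)) = 0`, where `E^(star m D)` is the twist of `E^m` by `D`, are
asymptotically independent.
-/

set_option autoImplicit false

open Finset Filter

namespace Pool.Agent.Results.MP_a3f657_nt.TrivialSelInfTwists

open Pool.Agent.TH841.SH.D (Sha Pruf)

open Pool.Agent.Y17.X.SI (SelInf)

/-- coefficients of the twist `E^D : y² = x³ + A D x + B D` of `X_0(14)` -/
def A (D : ℤ) : ℤ := 5805 * D ^ 2

/-- coefficients of the twist `E^D : y² = x³ + A D x + B D` of `X_0(14)` -/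
def B (D : ℤ) : ℤ := -285714 * D ^ 3

/-- the curve `E^D` over `ℚ` -/
def E (D : ℤ) : WeierstrassCurve ℚ :=
  { a₁ := 0, a₂ := 0, a₃ := 0, a₄ := (A D : ℚ), a₆ := (B D : ℚ) }

/-- all the terms of the sequence `0 → E^D(ℚ) ⊗ ℚ₂/ℤ₂ → Sel_{2 ^ ∞}(E^D) → Ш(E^D)[2 ^ ∞] → 0` are
zero -/
def ZeroSeq (D : ℤ) : Prop :=
  (∀ x : TensorProduct ℤ (E D).toAffine.Point Pruf, x = 0) ∧ (∀ x : SelInf (E D), x = 0) ∧
    ∀ (k : ℕ) (x : Sha (E D)), (2 ^ k : ℕ) • x = 0 → x = 0

/-- number of points of `E^1 = X_0(14)` over `ZMod p`, infinity included -/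
noncomputable def N (p : ℕ) : ℕ :=
  1 + Nat.card {z : ZMod p × ZMod p // z.2 ^ 2 = z.1 ^ 3 + (A 1 : ZMod p) * z.1 + (B 1 : ZMod p)}

/-- the prime factors `≡ 1 mod 8` of `D` -/
def S (D : ℤ) : Finset ℕ := D.natAbs.primeFactors.filter fun p => p % 8 = 1

open Classical in
/-- the matrix over `𝔽₂` with rows and columns indexed by `S D`: off the diagonal the
entry at `(p, p')` is `1` if `p'` is not a square modulo `p` and `0` otherwise; on the diagonal it
is the number of the prime factors of `D` different from `p` which are not squares modulo `p`, plus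
`1` if the number of points of `X_0(14)` modulo `p` is not divisible by `8` -/
noncomputable def R (D : ℤ) : Matrix (S D) (S D) (ZMod 2) := Matrix.of fun i j =>
  if i = j then
    (((D.natAbs.primeFactors.filter fun r : ℕ => r ≠ (i : ℕ) ∧
      ¬ IsSquare (r : ZMod (i : ℕ))).card : ZMod 2) + if 8 ∣ N (i : ℕ) then 0 else 1)
  else if IsSquare (((j : ℕ)) : ZMod (i : ℕ)) then 0 else 1

/-- primes which split completely in `ℚ(i, √2, √-7)` -/
def Split (p : ℕ) : Prop := p.Prime ∧ p % 8 = 1 ∧ (p % 7 = 1 ∨ p % 7 = 2 ∨ p % 7 = 4)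

/-- primes inert in `ℚ(√2)` and in `ℚ(√-7)` -/
def Inert (q : ℕ) : Prop :=
  q.Prime ∧ (q % 8 = 3 ∨ q % 8 = 5) ∧ (q % 7 = 3 ∨ q % 7 = 5 ∨ q % 7 = 6)

/-- the class of discriminants -/
def Adm (D : ℤ) : Prop := Squarefree D ∧ D % 4 = 1 ∧ (D % 7 = 1 ∨ D % 7 = 2 ∨ D % 7 = 4) ∧
  ∀ p : ℕ, p.Prime → (p : ℤ) ∣ D → p ≠ 3 ∧ (Split p ∨ Inert p)

/-- the squarefree part of the product of two squarefree numbers -/
def star (m D : ℤ) : ℤ := m * D / (Int.gcd m D : ℤ) ^ 2

/-- the number of the `D` in the class with `s D > 0`, `|D| ≤ X` and the property `Q` -/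
noncomputable def count (s : ℤ) (Q : ℤ → Prop) (X : ℕ) : ℕ :=
  Nat.card {D : ℤ // |D| ≤ X ∧ Adm D ∧ 0 < s * D ∧ Q D}

theorem result :
    (∀ D : ℤ, Adm D → (ZeroSeq D ↔ ∀ x : SelInf (E D), x = 0) ∧ (ZeroSeq D ↔ (R D).det ≠ 0)) ∧
    (∀ m D : ℤ, Adm m → Adm D → Adm (star m D) ∧ ∃ k : ℤ, k ≠ 0 ∧ m * D = star m D * k ^ 2) ∧
    ∃ c : ℝ, 0.4194 < c ∧ c < 0.4195 ∧
      Tendsto (fun n : ℕ => ∏ i ∈ range n, (1 - (1 / 2 : ℝ) ^ (2 * i + 1))) atTop (nhds c) ∧
      ∀ s : ℤ, (s = 1 ∨ s = -1) →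
        Tendsto (fun X : ℕ => (count s ZeroSeq X : ℝ) / (count s (fun _ => True) X : ℝ))
          atTop (nhds c) ∧
        ∀ G K : Finset ℤ, (∀ m ∈ G, Adm m) → (∀ m ∈ K, Adm m) → Disjoint G K →
        Tendsto (fun X : ℕ => (count s (fun D => (∀ m ∈ G, ZeroSeq (star m D)) ∧
            ∀ m ∈ K, ¬ ZeroSeq (star m D)) X : ℝ) / (count s (fun _ => True) X : ℝ))
          atTop (nhds (c ^ G.card * (1 - c) ^ K.card)) ∧
        ∃ (a : ℝ) (X₀ : ℕ), 0 < a ∧ ∀ X : ℕ, X₀ ≤ X → a * (X * (Real.log X) ^ (-(5 / 8) : ℝ)) ≤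
          (count s (fun D => (∀ m ∈ G, ZeroSeq (star m D)) ∧
            ∀ m ∈ K, ¬ ZeroSeq (star m D)) X : ℝ) := by
  have hA : ∀ D : ℤ, Adm D ↔ Y687.MQ.AdmD D := fun D => Iff.rfl
  have hS : ∀ m D : ℤ, star m D = Y17.X.star m D := fun m D => rfl
  have hN : ∀ p : ℕ, N p = Y687.NN 1 p := fun p => by
    unfold N Y687.NN Y687.cnt A B
    rw [add_comm]
    norm_num
  have hRm : ∀ D : ℤ, R D = Y687.MQ.matD D := by
    intro D
    unfold R Y687.MQ.matD
    ext i j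
    simp only [Matrix.of_apply, hN]
    rfl
  have hZ : ∀ D : ℤ, ZeroSeq D ↔ Y17.X.SI.ZeroSeq
      (Pool.Agent.Z702.sh (5805 * D ^ 2) (-285714 * D ^ 3)) := fun D => Iff.rfl
  have hR : ∀ D : ℤ, D ≠ 0 → (ZeroSeq D ↔ Y17.X.RZ D) := by
    intro D hD
    rw [hZ, Y17.X.SI.zeroSeq_ed hD, Y17.X.SI.selInf_ed hD]
    rfl
  have hQ : ∀ D : ℤ, Y687.MQ.AdmD D → (ZeroSeq D ↔ (Y687.MQ.matD D).det ≠ 0) := by
    intro D hD
    rw [hR D hD.1.ne_zero]
    exact Y17.X.rz_iff hD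
  obtain ⟨hC, -, -, hc1, hc2⟩ := Y948.CQ.t_C2
  have h1 : ∀ (s : ℤ) X, count s (fun _ => True) X =
      Y17.X.count (fun D => Y687.MQ.AdmD D ∧ 0 < s * D) X := by
    intro s X
    unfold count Y17.X.count
    simp only [hA, and_true]
  have h2 : ∀ (s : ℤ) (G K : Finset ℤ) X, count s (fun D => (∀ m ∈ G, ZeroSeq (star m D)) ∧
      ∀ m ∈ K, ¬ ZeroSeq (star m D)) X =
      Y17.X.count (fun D => Y687.MQ.AdmD D ∧ 0 < s * D ∧
        (∀ m ∈ G, ZeroSeq (Y17.X.star m D)) ∧ ∀ m ∈ K, ¬ ZeroSeq (Y17.X.star m D)) X := by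
    intro s G K X
    unfold count Y17.X.count
    simp only [hA, hS]
  have hlim : ∀ s : ℤ, (s = 1 ∨ s = -1) → ∀ G K : Finset ℤ, (∀ m ∈ G, Adm m) →
      (∀ m ∈ K, Adm m) → Disjoint G K →
      Tendsto (fun X : ℕ => (count s (fun D => (∀ m ∈ G, ZeroSeq (star m D)) ∧
        ∀ m ∈ K, ¬ ZeroSeq (star m D)) X : ℝ) / (count s (fun _ => True) X : ℝ))
        atTop (nhds (Y703.CQ.c2 ^ G.card * (1 - Y703.CQ.c2) ^ K.card)) := by
    intro s hs G K hG hK hd
    have h3 := Y17.X.pattern_of Y687.JQ.t_JDEN hs ZeroSeq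
      (fun D h _ => hQ D h) K hK G hG hd
    simp only [h1, h2]
    exact h3
  refine ⟨fun D hD => ⟨?_, ?_⟩, fun m D hm hD => ⟨(Y17.X.star_adm hm hD).1, ?_⟩,
    Y703.CQ.c2, hc1, hc2, ?_, ?_⟩
  · rw [hZ]
    exact Y17.X.SI.zeroSeq_ed hD.1.ne_zero
  · rw [hRm]
    exact hQ D hD
  · obtain ⟨g, a, b, hg, e1, e2, -, e3⟩ := Y17.X.star_eq D hm.1.ne_zero
    refine ⟨g, hg.ne', ?_⟩
    calc m * D = (g * a) * (g * b) := congrArg₂ (· * ·) e1 e2
      _ = a * b * g ^ 2 := by ring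
      _ = star m D * g ^ 2 := congrArg (· * g ^ 2) e3.symm
  · rw [tendsto_iff_norm_sub_tendsto_zero]
    refine squeeze_zero (fun n => norm_nonneg _) (fun n => ?_)
      (tendsto_pow_atTop_nhds_zero_of_lt_one (by norm_num : (0 : ℝ) ≤ 1 / 4)
        (by norm_num : (1 / 4 : ℝ) < 1))
    rw [Real.norm_eq_abs]
    exact hC n
  · intro s hs
    refine ⟨?_, fun G K hG hK hd => ⟨hlim s hs G K hG hK hd, ?_⟩⟩
    · have hone : Adm 1 := by
        refine ⟨squarefree_one, by norm_num, Or.inl (by norm_num), fun p hp hp1 => ?_⟩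
        exfalso
        have h3 : (p : ℤ) ∣ ((1 : ℕ) : ℤ) := hp1
        exact hp.one_lt.ne' (Nat.dvd_one.1 (Int.natCast_dvd_natCast.1 h3))
      have h3 := hlim s hs {1} ∅ (fun m hm => by
        rw [mem_singleton] at hm
        rw [hm]
        exact hone) (fun m hm => absurd hm (notMem_empty m)) (disjoint_empty_right _)
      rw [card_singleton, card_empty, pow_one, pow_zero, mul_one] at h3
      refine h3.congr fun X => ?_
      have h4 : (fun D => (∀ m ∈ ({1} : Finset ℤ), ZeroSeq (star m D)) ∧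
          ∀ m ∈ (∅ : Finset ℤ), ¬ ZeroSeq (star m D)) = ZeroSeq := by
        funext D
        have h5 : star 1 D = D := by
          unfold star
          rw [one_mul, Int.one_gcd]
          norm_num
        simp [h5]
      rw [h4]
    · obtain ⟨c, X₀, hc, hlow⟩ := Y17.X.low hs
      have hB := Y17.X.base_atTop hs
      have h3 := Y17.X.pattern_of Y687.JQ.t_JDEN hs ZeroSeq
        (fun D h _ => hQ D h) K hK G hG hd
      simp only [h2]
      have hpos : (0 : ℝ) < Y703.CQ.c2 ^ G.card * (1 - Y703.CQ.c2) ^ K.card := by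
        have k1 : (0 : ℝ) < Y703.CQ.c2 := by linarith
        have k2 : (0 : ℝ) < 1 - Y703.CQ.c2 := by linarith
        positivity
      refine Y17.X.low_of hpos hc X₀ (fun X hX => ?_) hB h3
      rw [← mul_assoc]
      exact hlow X hX

end Pool.Agent.Results.MP_a3f657_nt.TrivialSelInfTwists
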